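import Mathlib

set_option autoImplicit false

/-!
# Section 3 (ORD) of the blueprint for MP_5766af_al
-/

namespace Pool.Agent.Helper16.PT

open Module Finset

section Gram

variable {Z D : Type*} [Field Z] [DivisionRing D] [Algebra Z D] [FiniteDimensional Z D]

/-- Every element of `Z[y]` is a combination of `y ^ i`, `i < deg minpoly`. -/
theorem exists_coeff (y w : D) (hw : w ∈ Algebra.adjoin Z {y}) :
    ∃ q : ℕ → Z, w = ∑ i ∈ range (minpoly Z y).natDegree, q i • y ^ i := by
  rw [Algebra.adjoin_singleton_eq_range_aeval] at hw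
  obtain ⟨p, rfl⟩ := hw
  have hint : IsIntegral Z y := IsIntegral.of_finite Z y
  have hmon := minpoly.monic hint
  have hd : 0 < (minpoly Z y).natDegree := minpoly.natDegree_pos hint
  refine ⟨fun i => (p %ₘ minpoly Z y).coeff i, ?_⟩
  have h1 : (Polynomial.aeval y) p = (Polynomial.aeval y) (p %ₘ minpoly Z y) := by
    conv_lhs => rw [← Polynomial.modByMonic_add_div p (minpoly Z y)]
    simp
  have h2 : (p %ₘ minpoly Z y).natDegree < (minpoly Z y).natDegree :=
    Polynomial.natDegree_modByMonic_lt p hmon (by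
      intro h; rw [h] at hd; simp at hd)
  show (Polynomial.aeval y) p = _
  rw [h1]
  exact Polynomial.aeval_eq_sum_range' h2 y

theorem gram (τ : D →ₗ[Z] Z) (hτ : τ 1 ≠ 0) (TT : Subring Z) (y : D) (hy : y ≠ 0)
    (h : ∀ i : ℕ, τ (y ^ i) ∈ TT) :
    ∃ (m : ℕ) (t : ℕ → Z), (∀ i, t i ∈ TT) ∧ t 0 ≠ 0 ∧
      ∑ i ∈ range (m + 1), t i • y ^ i = 0 := by
  classical
  obtain ⟨d, hd⟩ : ∃ d, d = (minpoly Z y).natDegree := ⟨_, rfl⟩
  let v : Fin (d + 1) → (Fin d → TT) := fun j i => ⟨τ (y ^ ((j : ℕ) + (i : ℕ))), h _⟩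
  have hnl : ¬ LinearIndependent TT v := by
    intro hli
    have := hli.fintype_card_le_finrank
    simp at this
  obtain ⟨g, hg, j0, hj0⟩ := Fintype.not_linearIndependent_iff.1 hnl
  -- the relation
  obtain ⟨w, hw⟩ : ∃ w : D, w = ∑ j : Fin (d + 1), (g j : Z) • y ^ (j : ℕ) := ⟨_, rfl⟩
  have hwA : w ∈ Algebra.adjoin Z {y} := by
    rw [hw]
    refine Subalgebra.sum_mem _ (fun j _ => Subalgebra.smul_mem _ (Subalgebra.pow_mem _
      (Algebra.self_mem_adjoin_singleton Z y) _) _)
  have hwt : ∀ i, i < d → τ (w * y ^ i) = 0 := by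
    intro i hi
    have h1 := congrFun hg ⟨i, hi⟩
    have h2 := congrArg (fun t : TT => (t : Z)) h1
    simp only [Finset.sum_apply, Pi.smul_apply, Pi.zero_apply, smul_eq_mul, ZeroMemClass.coe_zero,
      v] at h2
    rw [hw, sum_mul, map_sum]
    rw [← h2]
    push_cast
    refine sum_congr rfl (fun j _ => ?_)
    rw [smul_mul_assoc, map_smul, smul_eq_mul, ← pow_add]
  have hw0 : w = 0 := by
    by_contra hne
    -- inverse of `w` inside `Z[y]`
    obtain ⟨w', hw', h1⟩ : ∃ w' ∈ Algebra.adjoin Z {y}, w * w' = 1 := by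
      let A := Algebra.adjoin Z {y}
      let L : A →ₗ[Z] A := LinearMap.mulLeft Z (⟨w, hwA⟩ : A)
      have hinj : Function.Injective L := by
        intro a b hab
        have := congrArg (fun t : A => (t : D)) hab
        simp only [L, LinearMap.mulLeft_apply, MulMemClass.coe_mul] at this
        exact Subtype.ext (mul_left_cancel₀ hne this)
      obtain ⟨a, ha⟩ := (LinearMap.injective_iff_surjective.1 hinj) 1
      refine ⟨a, a.2, ?_⟩
      have := congrArg (fun t : A => (t : D)) ha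
      simpa [L] using this
    obtain ⟨q, hq⟩ := exists_coeff y w' hw'
    apply hτ
    rw [← h1, hq, mul_sum, map_sum]
    refine sum_eq_zero (fun i hi => ?_)
    rw [mem_range, ← hd] at hi
    rw [mul_smul_comm, map_smul, hwt i hi, smul_zero]
  -- shift
  have hex : ∃ j : ℕ, ∃ hj : j < d + 1, g ⟨j, hj⟩ ≠ 0 := ⟨j0, j0.2, hj0⟩
  obtain ⟨k, hk, hkmin⟩ : ∃ k : ℕ, (∃ hj : k < d + 1, g ⟨k, hj⟩ ≠ 0) ∧
      ∀ k' < k, ¬ ∃ hj : k' < d + 1, g ⟨k', hj⟩ ≠ 0 :=
    ⟨Nat.find hex, Nat.find_spec hex, fun k' hk' => Nat.find_min hex hk'⟩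
  obtain ⟨hkd, hgk⟩ := hk
  let G : ℕ → Z := fun j => if hj : j < d + 1 then (g ⟨j, hj⟩ : Z) else 0
  have hG : ∀ j, G j ∈ TT := by
    intro j
    by_cases hj : j < d + 1
    · simp only [G, hj, dif_pos]; exact (g ⟨j, hj⟩).2
    · simp only [G, hj, dif_neg, not_false_iff]; exact TT.zero_mem
  refine ⟨d - k, fun i => G (k + i), fun i => hG _, ?_, ?_⟩
  · simp only [add_zero, G, hkd, dif_pos]
    intro h0
    exact hgk (Subtype.ext h0)
  · have h1 : w = ∑ j ∈ range (d + 1), G j • y ^ j := by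
      rw [hw, ← Fin.sum_univ_eq_sum_range (fun j => G j • y ^ j) (d + 1)]
      refine sum_congr rfl (fun j _ => ?_)
      have : G (j : ℕ) = (g j : Z) := by simp only [G]; rw [dif_pos j.2]
      rw [this]
    have h2 : ∑ j ∈ range (d + 1), G j • y ^ j =
        y ^ k * ∑ i ∈ range (d - k + 1), G (k + i) • y ^ i := by
      have e : d + 1 = k + (d - k + 1) := by omega
      rw [e, sum_range_add, mul_sum]
      have z : ∑ x ∈ range k, G x • y ^ x = 0 := by
        refine sum_eq_zero (fun j hj => ?_)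
        rw [mem_range] at hj
        have h3 := hkmin j hj
        push Not at h3
        have : G j = 0 := by
          simp only [G]
          split_ifs with h4
          · rw [h3 h4]; rfl
          · rfl
        rw [this, zero_smul]
      rw [z, zero_add]
      refine sum_congr rfl (fun i _ => ?_)
      rw [mul_smul_comm, ← pow_add]
    rw [hw0, h2] at h1
    rcases mul_eq_zero.1 h1.symm with h3 | h3
    · exact absurd h3 (pow_ne_zero _ hy)
    · exact h3

end Gram

section Density

variable {Z D : Type*} [Field Z] [DivisionRing D] [Algebra Z D] [FiniteDimensional Z D]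

/-- The set of maps `x ↦ r x s` with `r, s ∈ R`. -/
def LR (R : Subring D) : Set (Module.End Z D) :=
  {f | ∃ r ∈ R, ∃ s ∈ R, f = (LinearMap.mulLeft Z r).comp (LinearMap.mulRight Z s)}

/-- the subalgebra of `End Z D` generated by left multiplications by `R` and all right
multiplications -/
def SA (Z : Type*) {D : Type*} [Field Z] [DivisionRing D] [Algebra Z D] (R : Subring D) :
    Subalgebra Z (Module.End Z D) :=
  Algebra.adjoin Z ({f | ∃ r ∈ R, f = LinearMap.mulLeft Z r} ∪
    {f | ∃ s : D, f = LinearMap.mulRight Z s})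

theorem SA_top (R : Subring D)
    (hR : ∀ d : D, (∀ r ∈ R, d * r = r * d) → ∃ z : Z, algebraMap Z D z = d) :
    SA Z R = ⊤ := by
  classical
  have hsimple : IsSimpleModule (SA Z R) D := by
    rw [isSimpleModule_iff_toSpanSingleton_surjective]
    refine ⟨inferInstance, ?_⟩
    intro x hx y
    refine ⟨⟨LinearMap.mulRight Z (x⁻¹ * y), Algebra.subset_adjoin (Or.inr ⟨_, rfl⟩)⟩, ?_⟩
    show x * (x⁻¹ * y) = y
    rw [mul_inv_cancel_left₀ hx]
  rw [eq_top_iff]
  rintro f -
  -- `f` commutes with the endomorphisms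
  have hcomm : ∀ (φ : Module.End (SA Z R) D), ∃ z : Z, ∀ x, φ x = z • x := by
    intro φ
    have h1 : ∀ x, φ x = φ 1 * x := by
      intro x
      have := φ.map_smul (⟨LinearMap.mulRight Z x, Algebra.subset_adjoin (Or.inr ⟨_, rfl⟩)⟩ :
        SA Z R) 1
      have e1 : ((⟨LinearMap.mulRight Z x, Algebra.subset_adjoin (Or.inr ⟨_, rfl⟩)⟩ :
        SA Z R) • (1 : D)) = x := by
        show (1 : D) * x = x
        rw [one_mul]
      rw [e1] at this
      exact this
    have h2 : ∀ r ∈ R, φ 1 * r = r * φ 1 := by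
      intro r hr
      have := φ.map_smul (⟨LinearMap.mulLeft Z r, Algebra.subset_adjoin (Or.inl ⟨r, hr, rfl⟩)⟩ :
        SA Z R) 1
      have e1 : ((⟨LinearMap.mulLeft Z r, Algebra.subset_adjoin (Or.inl ⟨r, hr, rfl⟩)⟩ :
        SA Z R) • (1 : D)) = r := by
        show r * (1 : D) = r
        rw [mul_one]
      rw [e1, h1 r] at this
      exact this
    obtain ⟨z, hz⟩ := hR _ h2
    refine ⟨z, fun x => ?_⟩
    rw [h1 x, ← hz, Algebra.smul_def]
  let F : Module.End (Module.End (SA Z R) D) D :=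
    { toFun := f
      map_add' := f.map_add
      map_smul' := by
        intro φ x
        obtain ⟨z, hz⟩ := hcomm φ
        show f (φ x) = φ (f x)
        rw [hz, hz, map_smul] }
  let b := Module.finBasis Z D
  obtain ⟨r, hr⟩ := jacobson_density (R := SA Z R) (M := D) F (univ.image b)
  have : f = (r : Module.End Z D) := by
    refine b.ext (fun i => ?_)
    exact hr (b i) (mem_image_of_mem _ (mem_univ _))
  rw [this]
  exact r.2

/-- the submonoid of the maps `x ↦ b x s`, `b ∈ R`, `s ∈ D` -/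
def XS (Z : Type*) {D : Type*} [Field Z] [DivisionRing D] [Algebra Z D] (R : Subring D) :
    Submonoid (Module.End Z D) where
  carrier := {f | ∃ b ∈ R, ∃ s : D, f = (LinearMap.mulLeft Z b).comp (LinearMap.mulRight Z s)}
  one_mem' := ⟨1, R.one_mem, 1, by ext x; simp⟩
  mul_mem' := by
    rintro f g ⟨b, hb, s, rfl⟩ ⟨b', hb', s', rfl⟩
    refine ⟨b * b', R.mul_mem hb hb', s' * s, ?_⟩
    ext x
    simp [Module.End.mul_apply, mul_assoc]

theorem span_XS (R : Subring D)
    (hR : ∀ d : D, (∀ r ∈ R, d * r = r * d) → ∃ z : Z, algebraMap Z D z = d) :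
    Submodule.span Z (XS Z R : Set (Module.End Z D)) = ⊤ := by
  rw [eq_top_iff]
  intro f _
  have hf : f ∈ SA Z R := by rw [SA_top R hR]; trivial
  have h1 : f ∈ Subalgebra.toSubmodule (SA Z R) := hf
  rw [SA, Algebra.adjoin_eq_span] at h1
  refine Submodule.span_mono ?_ h1
  have : Submonoid.closure ({f | ∃ r ∈ R, f = LinearMap.mulLeft Z r} ∪
      {f | ∃ s : D, f = LinearMap.mulRight Z s}) ≤ XS Z R := by
    rw [Submonoid.closure_le]
    rintro g (⟨r, hr, rfl⟩ | ⟨s, rfl⟩)
    · exact ⟨r, hr, 1, by ext x; simp⟩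
    · exact ⟨1, R.one_mem, s, by ext x; simp⟩
  exact this

theorem span_R (R : Subring D)
    (hR : ∀ d : D, (∀ r ∈ R, d * r = r * d) → ∃ z : Z, algebraMap Z D z = d) :
    Submodule.span Z (R : Set D) = ⊤ := by
  obtain ⟨B, hB⟩ : ∃ B : Submodule Z D, B = Submodule.span Z (R : Set D) := ⟨_, rfl⟩
  rw [← hB]
  let Ψ : TensorProduct Z B D →ₗ[Z] Module.End Z D :=
    TensorProduct.lift (LinearMap.mk₂ Z
      (fun (b : B) (s : D) => (LinearMap.mulLeft Z (b : D)).comp (LinearMap.mulRight Z s))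
      (by intro b b' s; ext x; simp [add_mul])
      (by intro c b s; ext x; simp)
      (by intro b s s'; ext x; simp [mul_add])
      (by intro c b s; ext x; simp))
  have hΨ : Function.Surjective Ψ := by
    rw [← LinearMap.range_eq_top, eq_top_iff, ← span_XS R hR, Submodule.span_le]
    rintro f ⟨b, hb, s, rfl⟩
    exact ⟨(⟨b, by rw [hB]; exact Submodule.subset_span hb⟩ : B) ⊗ₜ[Z] s, by simp [Ψ]⟩
  have h1 := LinearMap.finrank_le_finrank_of_surjective hΨ
  have h3 : finrank Z (Module.End Z D) = finrank Z D * finrank Z D :=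
    finrank_linearMap Z Z D D
  rw [finrank_tensorProduct, h3] at h1
  have hpos : 0 < finrank Z D := finrank_pos
  have h4 : finrank Z D ≤ finrank Z B := Nat.le_of_mul_le_mul_right h1 hpos
  exact Submodule.eq_top_of_finrank_eq (le_antisymm (Submodule.finrank_le B) h4)

theorem span_LR (R : Subring D)
    (hR : ∀ d : D, (∀ r ∈ R, d * r = r * d) → ∃ z : Z, algebraMap Z D z = d) :
    Submodule.span Z (LR (Z := Z) R) = ⊤ := by
  rw [eq_top_iff, ← span_XS R hR, Submodule.span_le]
  rintro f ⟨b, hb, s, rfl⟩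
  have hs : s ∈ Submodule.span Z (R : Set D) := by rw [span_R R hR]; trivial
  let Φ : D →ₗ[Z] Module.End Z D :=
    { toFun := fun s => (LinearMap.mulLeft Z b).comp (LinearMap.mulRight Z s)
      map_add' := by intro s s'; ext x; simp [mul_add]
      map_smul' := by intro c s; ext x; simp }
  have h1 : Φ s ∈ (Submodule.span Z (R : Set D)).map Φ := Submodule.mem_map_of_mem hs
  rw [Submodule.map_span] at h1
  refine Submodule.span_mono ?_ h1
  rintro g ⟨s', hs', rfl⟩
  exact ⟨b, hb, s', hs', rfl⟩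

end Density

section Capelli

variable {Z D : Type*} [Field Z] [DivisionRing D] [Algebra Z D] [FiniteDimensional Z D]

/-- the Capelli-type alternating map attached to `f` -/
noncomputable def Cap {n : ℕ} (f : Fin n → Module.End Z D) : D [⋀^Fin n]→ₗ[Z] D :=
  MultilinearMap.alternatization ((MultilinearMap.mkPiAlgebraFin Z n D).compLinearMap f)

omit [FiniteDimensional Z D] in
theorem Cap_apply {n : ℕ} (f : Fin n → Module.End Z D) (x : Fin n → D) :
    Cap f x = ∑ σ : Equiv.Perm (Fin n),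
      Equiv.Perm.sign σ • (List.ofFn (fun i => f i (x (σ i)))).prod := by
  rw [Cap, MultilinearMap.alternatization_apply]
  refine sum_congr rfl (fun σ _ => ?_)
  rw [MultilinearMap.domDomCongr_apply, MultilinearMap.compLinearMap_apply,
    MultilinearMap.mkPiAlgebraFin_apply]

/-- `Cap` as a multilinear function of `f`. -/
noncomputable def CapM {n : ℕ} (x : Fin n → D) :
    MultilinearMap Z (fun _ : Fin n => Module.End Z D) D :=
  ∑ σ : Equiv.Perm (Fin n), Equiv.Perm.sign σ •
    ((MultilinearMap.mkPiAlgebraFin Z n D).compLinearMap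
      (fun i => (LinearMap.applyₗ (x (σ i)) : Module.End Z D →ₗ[Z] D)))

omit [FiniteDimensional Z D] in
theorem CapM_apply {n : ℕ} (f : Fin n → Module.End Z D) (x : Fin n → D) :
    CapM x f = Cap f x := by
  rw [Cap_apply, CapM, _root_.sum_apply]
  refine sum_congr rfl (fun σ _ => ?_)
  rw [_root_.smul_apply, MultilinearMap.compLinearMap_apply,
    MultilinearMap.mkPiAlgebraFin_apply]
  rfl

omit [FiniteDimensional Z D] in
theorem Cap_ne_zero {n : ℕ} (S : Set (Module.End Z D)) (hS : Submodule.span Z S = ⊤)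
    (e : Basis (Fin n) Z D) : ∃ f : Fin n → Module.End Z D, (∀ i, f i ∈ S) ∧ Cap f e ≠ 0 := by
  classical
  by_contra hcon
  push Not at hcon
  have hz : CapM (Z := Z) (n := n) e = 0 := by
    refine Basis.ext_multilinear (fun _ => Basis.ofSpan hS.ge) (fun v => ?_)
    rw [CapM_apply, _root_.zero_apply]
    exact hcon _ (fun i => Basis.ofSpan_subset hS.ge ⟨_, rfl⟩)
  have h1 := congrArg (fun g => g (fun i => (Algebra.linearMap Z D).comp (e.coord i))) hz
  simp only [CapM_apply, _root_.zero_apply] at h1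
  rw [Cap_apply, sum_eq_single (1 : Equiv.Perm (Fin n))] at h1
  · simp at h1
  · intro σ _ hσ
    obtain ⟨i, hi⟩ : ∃ i, σ i ≠ i := by
      by_contra hh
      push Not at hh
      exact hσ (Equiv.ext hh)
    have : (List.ofFn (fun i => ((Algebra.linearMap Z D).comp (e.coord i)) (e (σ i)))).prod = 0 := by
      apply List.prod_eq_zero
      rw [List.mem_ofFn]
      exact ⟨i, by simp [hi]⟩
    rw [this, smul_zero]
  · intro h; exact absurd (mem_univ _) h

/-- the trace form -/
noncomputable def tr (Z : Type*) (D : Type*) [Field Z] [DivisionRing D] [Algebra Z D] : D →ₗ[Z] Z :=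
  (LinearMap.trace Z D).comp (LinearMap.mul Z D)

omit [FiniteDimensional Z D] in
theorem tr_comm (a b : D) : tr Z D (a * b) = tr Z D (b * a) := by
  have h : ∀ a b : D, LinearMap.mul Z D (a * b) = LinearMap.mul Z D a * LinearMap.mul Z D b := by
    intro a b; ext x; simp [mul_assoc]
  show LinearMap.trace Z D (LinearMap.mul Z D (a * b)) = LinearMap.trace Z D (LinearMap.mul Z D (b * a))
  rw [h, h, LinearMap.trace_mul_comm]

theorem tr_one : tr Z D 1 = finrank Z D := by
  have h : LinearMap.mul Z D (1 : D) = 1 := by ext x; simp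
  show LinearMap.trace Z D (LinearMap.mul Z D 1) = _
  rw [h, LinearMap.trace_one]

theorem Cap_trace {n : ℕ} (φ : D [⋀^Fin n]→ₗ[Z] D) (hn : n = finrank Z D) (x : Fin n → D) (a : D) :
    tr Z D a • φ x = ∑ i, φ (Function.update x i (a * x i)) ∨ φ x = 0 := by
  classical
  by_cases hli : LinearIndependent Z x
  · left
    have : Nonempty (Fin n) := by
      rw [hn]; exact Fin.pos_iff_nonempty.1 finrank_pos
    let b : Basis (Fin n) Z D :=
      basisOfLinearIndependentOfCardEqFinrank hli (by rw [Fintype.card_fin, hn])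
    have hb : ∀ i, b i = x i := fun i => by simp [b]
    have h1 : tr Z D a = ∑ i, b.repr (a * b i) i := by
      show LinearMap.trace Z D (LinearMap.mul Z D a) = _
      rw [LinearMap.trace_eq_matrix_trace Z b, Matrix.trace]
      refine sum_congr rfl (fun i _ => ?_)
      rw [Matrix.diag_apply, LinearMap.toMatrix_apply]
      rfl
    rw [h1, sum_smul]
    refine sum_congr rfl (fun i _ => ?_)
    let g : D →ₗ[Z] D := φ.toMultilinearMap.toLinearMap x i
    have hg : ∀ u, g u = φ (Function.update x i u) := fun u => rfl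
    rw [← hg]
    conv_rhs => rw [← hb i, ← b.sum_repr (a * b i)]
    rw [map_sum, sum_eq_single i]
    · rw [map_smul, hb i, hg, Function.update_eq_self]
    · intro j _ hj
      rw [map_smul, hb j, hg, φ.map_update_self x hj.symm, smul_zero]
    · intro h; exact absurd (mem_univ _) h
  · right
    exact φ.map_linearDependent x hli

end Capelli

section Main

variable {Z D : Type*} [Field Z] [CharZero Z] [DivisionRing D] [Algebra Z D]
  [FiniteDimensional Z D]

omit [CharZero Z] in
/-- Main lemma: a nonzero `δ ∈ R` with `t δ ∈ R` for all `t` in the trace ring of `R`. -/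
theorem exists_delta (R : Subring D)
    (hR : ∀ d : D, (∀ r ∈ R, d * r = r * d) → ∃ z : Z, algebraMap Z D z = d) :
    ∃ (TT : Subring Z) (δ : D), δ ∈ R ∧ δ ≠ 0 ∧ (∀ r ∈ R, tr Z D r ∈ TT) ∧
      ∀ t ∈ TT, t • δ ∈ R := by
  classical
  -- a basis inside `R`
  obtain ⟨e, heR⟩ : ∃ e : Basis (Fin (finrank Z D)) Z D, ∀ i, e i ∈ R := by
    let b := Basis.ofSpan (span_R R hR).ge
    have hfin : Finite ((linearIndepOn_empty Z id).extend (Set.empty_subset (R : Set D))) :=
      Module.Finite.finite_basis b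
    let _ := Fintype.ofFinite ((linearIndepOn_empty Z id).extend (Set.empty_subset (R : Set D)))
    have hc : Fintype.card ((linearIndepOn_empty Z id).extend (Set.empty_subset (R : Set D))) =
      finrank Z D := (finrank_eq_card_basis b).symm
    refine ⟨b.reindex (Fintype.equivFinOfCardEq hc), fun i => ?_⟩
    rw [Basis.reindex_apply]
    exact Basis.ofSpan_subset (span_R R hR).ge ⟨_, rfl⟩
  obtain ⟨f, hf, hfe⟩ := Cap_ne_zero (LR (Z := Z) R) (span_LR R hR) e
  have hCR : ∀ x : Fin (finrank Z D) → D, (∀ i, x i ∈ R) → Cap f x ∈ R := by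
    intro x hx
    rw [Cap_apply]
    refine R.sum_mem (fun σ _ => ?_)
    have : (List.ofFn (fun i => f i (x (σ i)))).prod ∈ R := by
      refine R.list_prod_mem (fun y hy => ?_)
      rw [List.mem_ofFn] at hy
      obtain ⟨i, rfl⟩ := hy
      obtain ⟨r, hr, s, hs, h⟩ := hf i
      rw [h]
      exact R.mul_mem hr (R.mul_mem (hx _) hs)
    rcases Int.units_eq_one_or (Equiv.Perm.sign σ) with h | h
    · rw [h, one_smul]; exact this
    · rw [h, Units.neg_smul, one_smul]; exact R.neg_mem this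
  let I : AddSubgroup D := AddSubgroup.closure {u | ∃ x : Fin (finrank Z D) → D,
    (∀ i, x i ∈ R) ∧ u = Cap f x}
  have hIR : ∀ u ∈ I, u ∈ R := by
    intro u hu
    have : I ≤ R.toAddSubgroup := by
      rw [AddSubgroup.closure_le]
      rintro v ⟨x, hx, rfl⟩
      exact hCR x hx
    exact this hu
  let TT : Subring Z :=
    { carrier := {t | ∀ u ∈ I, t • u ∈ I}
      one_mem' := fun u hu => by rw [one_smul]; exact hu
      zero_mem' := fun u _ => by rw [zero_smul]; exact I.zero_mem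
      mul_mem' := fun {s t} hs ht u hu => by rw [mul_smul]; exact hs _ (ht _ hu)
      add_mem' := fun {s t} hs ht u hu => by rw [add_smul]; exact I.add_mem (hs _ hu) (ht _ hu)
      neg_mem' := fun {s} hs u hu => by rw [neg_smul]; exact I.neg_mem (hs _ hu) }
  refine ⟨TT, Cap f e, hCR _ heR, hfe, ?_, ?_⟩
  · intro r hr u hu
    induction hu using AddSubgroup.closure_induction with
    | mem u hu =>
      obtain ⟨x, hx, rfl⟩ := hu
      rcases Cap_trace (Cap f) rfl x r with h | h
      · rw [h]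
        refine I.sum_mem (fun i _ => AddSubgroup.subset_closure ⟨_, fun j => ?_, rfl⟩)
        by_cases hj : j = i
        · subst hj; rw [Function.update_self]; exact R.mul_mem hr (hx _)
        · rw [Function.update_of_ne hj]; exact hx _
      · rw [h, smul_zero]; exact I.zero_mem
    | zero => rw [smul_zero]; exact I.zero_mem
    | add a b _ _ ha hb => rw [smul_add]; exact I.add_mem ha hb
    | neg a _ ha => rw [smul_neg]; exact I.neg_mem ha
  · intro t ht
    exact hIR _ (ht _ (AddSubgroup.subset_closure ⟨e, heR, rfl⟩))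

theorem core (R : Subring D)
    (hR : ∀ d : D, (∀ r ∈ R, d * r = r * d) → ∃ z : Z, algebraMap Z D z = d)
    (r : D) (hr : r ∈ R) (hr0 : r ≠ 0) :
    ∃ (TT : Subring Z) (t0 : Z), t0 ≠ 0 ∧ (∀ s ∈ R, tr Z D s ∈ TT) ∧
      ∀ t ∈ TT, ∃ r' ∈ R, r * r' = algebraMap Z D (t * t0) := by
  obtain ⟨TT, δ, hδR, hδ0, h1, h2⟩ := exists_delta R hR
  have hy : r * δ ≠ 0 := mul_ne_zero hr0 hδ0
  have hn : tr Z D 1 ≠ 0 := by
    rw [tr_one]
    exact_mod_cast (finrank_pos (R := Z) (M := D)).ne'
  obtain ⟨m, t, htT, ht0, hsum⟩ := gram (tr Z D) hn TT (r * δ) hy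
    (fun i => h1 _ (R.pow_mem (R.mul_mem hr hδR) i))
  refine ⟨TT, t 0, ht0, h1, fun s hs => ?_⟩
  refine ⟨-∑ i ∈ range m, ((s * t (i + 1)) • δ) * (r * δ) ^ i, ?_, ?_⟩
  · refine R.neg_mem (R.sum_mem (fun i _ => R.mul_mem (h2 _ (TT.mul_mem hs (htT _)))
      (R.pow_mem (R.mul_mem hr hδR) i)))
  · rw [sum_range_succ'] at hsum
    have h3 : ∑ i ∈ range m, t (i + 1) • (r * δ) ^ (i + 1) = -(t 0 • 1) := by
      rw [pow_zero] at hsum
      exact eq_neg_of_add_eq_zero_left hsum
    have h4 : r * ∑ i ∈ range m, ((s * t (i + 1)) • δ) * (r * δ) ^ i =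
        s • ∑ i ∈ range m, t (i + 1) • (r * δ) ^ (i + 1) := by
      rw [mul_sum, smul_sum]
      refine sum_congr rfl (fun i _ => ?_)
      rw [smul_mul_assoc, mul_smul_comm, smul_smul, pow_succ', mul_assoc]
    rw [mul_neg, h4, h3, smul_neg, neg_neg, smul_smul, Algebra.algebraMap_eq_smul_one]

variable (T : D →ₗ[Z] Z)

omit [CharZero Z] in
/-- (O1) the `Z`-span of `R` is `D`. -/
theorem ord_O1 (R : Subring D)
    (hR : ∀ d : D, (∀ r ∈ R, d * r = r * d) → ∃ z : Z, algebraMap Z D z = d) :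
    Submodule.span Z (R : Set D) = ⊤ := span_R R hR

/-- (O2) a common denominator for the values of `T` on `R`. -/
theorem ord_O2 (hTu : ∀ φ : D →ₗ[Z] Z, (∀ a b, φ (a * b) = φ (b * a)) → φ = φ 1 • T)
    (R : Subring D)
    (hR : ∀ d : D, (∀ r ∈ R, d * r = r * d) → ∃ z : Z, algebraMap Z D z = d) :
    ∃ ν : Z, ν ≠ 0 ∧ algebraMap Z D ν ∈ R ∧ ∀ r ∈ R, algebraMap Z D (T r * ν) ∈ R := by
  obtain ⟨TT, t0, ht0, h1, h2⟩ := core R hR 1 R.one_mem one_ne_zero
  have hn : tr Z D 1 ≠ 0 := by
    rw [tr_one]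
    exact_mod_cast (finrank_pos (R := Z) (M := D)).ne'
  have hT : ∀ r, tr Z D r = tr Z D 1 * T r := by
    intro r
    have := hTu (tr Z D) tr_comm
    conv_lhs => rw [this]
    rfl
  have hmem : ∀ t ∈ TT, algebraMap Z D (t * t0) ∈ R := by
    intro t ht
    obtain ⟨r', hr', h⟩ := h2 t ht
    rw [one_mul] at h
    rw [← h]; exact hr'
  refine ⟨tr Z D 1 * t0, mul_ne_zero hn ht0, hmem _ (h1 _ R.one_mem), fun r hr => ?_⟩
  have : T r * (tr Z D 1 * t0) = tr Z D r * t0 := by rw [hT r]; ring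
  rw [this]
  exact hmem _ (h1 r hr)

/-- (O3) every nonzero `r ∈ R` divides (in `R`) a nonzero element of `Z ∩ R`. -/
theorem ord_O3 (R : Subring D)
    (hR : ∀ d : D, (∀ r ∈ R, d * r = r * d) → ∃ z : Z, algebraMap Z D z = d)
    (r : D) (hr : r ∈ R) (hr0 : r ≠ 0) :
    ∃ r' ∈ R, ∃ ν : Z, ν ≠ 0 ∧ algebraMap Z D ν ∈ R ∧ r * r' = algebraMap Z D ν := by
  obtain ⟨TT, t0, ht0, _, h2⟩ := core R hR r hr hr0
  obtain ⟨r', hr', h⟩ := h2 1 TT.one_mem
  rw [one_mul] at h
  exact ⟨r', hr', t0, ht0, h ▸ R.mul_mem hr hr', h⟩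

end Main

end Pool.Agent.Helper16.PT
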